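import Pool.Agent.H85.LK.Targets

/-! # The min-max set is nonempty -/

set_option autoImplicit false

open MeasureTheory Metric Set

namespace Pool.Agent.H19.LK

open Pool.Agent.H85.LK

/-- at most one member of the family is nonzero -/
theorem norm_sum_sq {ι F : Type} [Fintype ι] [NormedAddCommGroup F] [NormedSpace ℝ F]
    (f : ι → F) (a : ι → ℝ) (h : ∀ i j, i ≠ j → f i = 0 ∨ f j = 0) :
    ‖∑ i, a i • f i‖ ^ 2 = ∑ i, a i ^ 2 * ‖f i‖ ^ 2 := by
  classical
  by_cases h0 : ∀ i, f i = 0
  · simp [h0]
  · push Not at h0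
    obtain ⟨i0, hi0⟩ := h0
    have hz : ∀ j, j ≠ i0 → f j = 0 := by
      intro j hj
      rcases h j i0 hj with h1 | h1
      · exact h1
      · exact absurd h1 hi0
    rw [Finset.sum_eq_single i0 (fun j _ hj => by rw [hz j hj, smul_zero])
      (fun h1 => absurd (Finset.mem_univ _) h1),
      Finset.sum_eq_single i0 (fun j _ hj => by rw [hz j hj, norm_zero]; ring)
      (fun h1 => absurd (Finset.mem_univ _) h1), norm_smul, mul_pow, Real.norm_eq_abs, sq_abs]

/-- separated points in an open set -/
theorem exists_points (N n : ℕ) (Ω : Set (E N)) (hN : 1 ≤ N) (hΩ : IsOpen Ω)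
    (hne : Ω.Nonempty) : ∃ (p : Fin n → E N) (δ : ℝ), 0 < δ ∧
      (∀ i, closedBall (p i) δ ⊆ Ω) ∧ ∀ i j, i ≠ j →
        Disjoint (closedBall (p i) δ) (closedBall (p j) δ) := by
  obtain ⟨x₀, hx₀⟩ := hne
  obtain ⟨R, hR, hball⟩ := Metric.isOpen_iff.1 hΩ x₀ hx₀
  obtain ⟨e, he⟩ : ∃ e : E N, ‖e‖ = 1 := by
    refine ⟨EuclideanSpace.single (⟨0, by omega⟩ : Fin N) (1 : ℝ), ?_⟩
    simp
  have hn0 : (0 : ℝ) < (n : ℝ) + 1 := by positivity
  set δ : ℝ := R / (4 * ((n : ℝ) + 1)) with hδ
  have hδ0 : 0 < δ := by positivity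
  have hRδ : R = 4 * ((n : ℝ) + 1) * δ := by
    rw [hδ]
    field_simp
  refine ⟨fun i => x₀ + (4 * (i : ℝ) * δ) • e, δ, hδ0, ?_, ?_⟩
  · intro i x hx
    apply hball
    rw [mem_ball, dist_eq_norm]
    rw [mem_closedBall, dist_eq_norm] at hx
    have hi : (i : ℝ) + 1 ≤ n := by exact_mod_cast i.2
    calc ‖x - x₀‖ = ‖(x - (x₀ + (4 * (i : ℝ) * δ) • e)) + (4 * (i : ℝ) * δ) • e‖ := by
          congr 1
          abel
      _ ≤ ‖x - (x₀ + (4 * (i : ℝ) * δ) • e)‖ + ‖(4 * (i : ℝ) * δ) • e‖ := norm_add_le _ _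
      _ ≤ δ + 4 * (i : ℝ) * δ := by
          rw [norm_smul, he, mul_one, Real.norm_of_nonneg (by positivity)]
          linarith
      _ < R := by
          rw [hRδ]
          nlinarith
  · intro i j hij
    apply closedBall_disjoint_closedBall
    rw [dist_eq_norm]
    have h1 : x₀ + (4 * (i : ℝ) * δ) • e - (x₀ + (4 * (j : ℝ) * δ) • e) =
        (4 * ((i : ℝ) - j) * δ) • e := by
      rw [add_sub_add_left_eq_sub, ← sub_smul]
      congr 1
      ring
    rw [h1, norm_smul, he, mul_one, Real.norm_eq_abs, abs_mul, abs_mul, abs_of_pos hδ0]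
    have h2 : 1 ≤ |(i : ℝ) - j| := by
      have h3 : (i : ℤ) - j ≠ 0 := by
        intro h4
        apply hij
        have h5 : (i : ℤ) = j := by linarith
        exact Fin.ext (by exact_mod_cast h5)
      have h6 := Int.one_le_abs h3
      have h7 : (1 : ℝ) ≤ ((|(i : ℤ) - j| : ℤ) : ℝ) := by exact_mod_cast h6
      simpa using h7
    have h8 : |(4 : ℝ)| = 4 := by norm_num
    rw [h8]
    nlinarith

theorem pf_NE : T_NE := by
  intro N n Ω hN hΩ hne
  obtain ⟨p, δ, hδ, hsub, hdis⟩ := exists_points N n Ω hN hΩ hne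
  let φ : (i : Fin n) → ContDiffBump (p i) := fun i => ⟨δ / 2, δ, by positivity, by linarith⟩
  let f : Fin n → E N → ℝ := fun i => φ i
  have hfc : ∀ i, ContDiff ℝ (⊤ : ℕ∞) (f i) := fun i => (φ i).contDiff
  have hfs : ∀ i, HasCompactSupport (f i) := fun i => (φ i).hasCompactSupport
  have hft : ∀ i, tsupport (f i) = closedBall (p i) δ := fun i => (φ i).tsupport_eq
  have hfp : ∀ i, f i (p i) = 1 := fun i =>
    (φ i).one_of_mem_closedBall (mem_closedBall_self (by positivity))
  have hzero : ∀ i x, x ∉ closedBall (p i) δ → f i x = 0 := by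
    intro i x hx
    rw [← hft i] at hx
    exact image_eq_zero_of_notMem_tsupport hx
  have hdzero : ∀ i x, x ∉ closedBall (p i) δ → fderiv ℝ (f i) x = 0 := by
    intro i x hx
    rw [← hft i] at hx
    exact image_eq_zero_of_notMem_tsupport (fun h => hx (tsupport_fderiv_subset ℝ h))
  have hsep : ∀ i j, i ≠ j → ∀ x, x ∉ closedBall (p i) δ ∨ x ∉ closedBall (p j) δ := by
    intro i j hij x
    by_contra hcon
    push Not at hcon
    exact (Set.disjoint_left.1 (hdis i j hij)) hcon.1 hcon.2
  have hsqi : ∀ i, Integrable (fun x => f i x ^ 2) := by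
    intro i
    apply Continuous.integrable_of_hasCompactSupport
    · exact (hfc i).continuous.pow 2
    · exact (hfs i).comp_left (g := fun t : ℝ => t ^ 2) (by norm_num)
  have hdi : ∀ i, Integrable (fun x => ‖fderiv ℝ (f i) x‖ ^ 2) := by
    intro i
    apply Continuous.integrable_of_hasCompactSupport
    · exact ((hfc i).continuous_fderiv (by simp)).norm.pow 2
    · exact ((hfs i).fderiv ℝ).comp_left (g := fun t : E N →L[ℝ] ℝ => ‖t‖ ^ 2) (by simp)
  have hpos : ∀ i, 0 < ∫ x, f i x ^ 2 := by
    intro i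
    apply Continuous.integral_pos_of_hasCompactSupport_nonneg_nonzero (x := p i)
    · exact (hfc i).continuous.pow 2
    · exact (hfs i).comp_left (g := fun t : ℝ => t ^ 2) (by norm_num)
    · intro x
      exact sq_nonneg _
    · rw [hfp]
      norm_num
  set c : ℝ := ∑ i, (∫ x, ‖fderiv ℝ (f i) x‖ ^ 2) / ∫ x, f i x ^ 2 with hc
  have hci : ∀ i, ∫ x, ‖fderiv ℝ (f i) x‖ ^ 2 ≤ c * ∫ x, f i x ^ 2 := by
    intro i
    rw [← div_le_iff₀ (hpos i), hc]
    apply Finset.single_le_sum
      (f := fun i => (∫ x, ‖fderiv ℝ (f i) x‖ ^ 2) / ∫ x, f i x ^ 2) _ (Finset.mem_univ i)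
    intro j _
    exact div_nonneg (integral_nonneg fun x => by positivity) (hpos j).le
  refine ⟨c, Submodule.span ℝ (Set.range f), ?_, ?_⟩
  · have hli : LinearIndependent ℝ f := by
      rw [Fintype.linearIndependent_iff]
      intro a ha j
      have h1 := congrFun ha (p j)
      rw [Finset.sum_apply, Finset.sum_eq_single j] at h1
      · simpa [hfp] using h1
      · intro i _ hij
        have h2 : f i (p j) = 0 := by
          apply hzero
          rcases hsep i j hij (p j) with h3 | h3
          · exact h3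
          · exact absurd (mem_closedBall_self hδ.le) h3
        simp [h2]
      · intro h3
        exact absurd (Finset.mem_univ _) h3
    rw [finrank_span_eq_card hli, Fintype.card_fin]
  · intro v hv
    obtain ⟨a, rfl⟩ := (Submodule.mem_span_range_iff_exists_fun ℝ).1 hv
    have hveq : ∀ x, (∑ i, a i • f i) x = ∑ i, a i • f i x := by
      intro x
      simp
    have hvfun : (∑ i, a i • f i) = fun x => ∑ i, a i • f i x := funext hveq
    have hcd : ContDiff ℝ (⊤ : ℕ∞) (∑ i, a i • f i) := by
      rw [hvfun]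
      exact ContDiff.sum fun i _ => (hfc i).const_smul (a i)
    set K : Set (E N) := ⋃ i, closedBall (p i) δ with hK
    have hKc : IsCompact K := isCompact_iUnion fun i => isCompact_closedBall _ _
    have hKz : ∀ x, x ∉ K → (∑ i, a i • f i) x = 0 := by
      intro x hx
      rw [hveq]
      apply Finset.sum_eq_zero
      intro i _
      rw [hzero i x (fun h => hx (Set.mem_iUnion.2 ⟨i, h⟩)), smul_zero]
    have hts : tsupport (∑ i, a i • f i) ⊆ K := by
      apply closure_minimal _ hKc.isClosed
      intro x hx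
      by_contra hxK
      exact hx (hKz x hxK)
    refine ⟨hcd, HasCompactSupport.intro hKc hKz, ?_, ?_⟩
    · refine hts.trans (Set.iUnion_subset hsub)
    · have hd : ∀ x, fderiv ℝ (∑ i, a i • f i) x = ∑ i, a i • fderiv ℝ (f i) x := by
        intro x
        rw [fderiv_sum]
        · apply Finset.sum_congr rfl
          intro i _
          exact fderiv_const_smul ((hfc i).differentiable (by simp) x) (a i)
        · intro i _
          exact ((hfc i).differentiable (by simp) x).const_smul (a i)
      have e1 : ∀ x, ‖fderiv ℝ (∑ i, a i • f i) x‖ ^ 2 =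
          ∑ i, a i ^ 2 * ‖fderiv ℝ (f i) x‖ ^ 2 := by
        intro x
        rw [hd x]
        apply norm_sum_sq
        intro i j hij
        rcases hsep i j hij x with h | h
        · exact Or.inl (hdzero i x h)
        · exact Or.inr (hdzero j x h)
      have e2 : ∀ x, (∑ i, a i • f i) x ^ 2 = ∑ i, a i ^ 2 * f i x ^ 2 := by
        intro x
        have h1 := norm_sum_sq (fun i => f i x) a (by
          intro i j hij
          rcases hsep i j hij x with h | h
          · exact Or.inl (hzero i x h)
          · exact Or.inr (hzero j x h))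
        rw [hveq]
        simpa using h1
      simp_rw [e1, e2]
      rw [integral_finsetSum _ (fun i _ => (hdi i).const_mul _),
        integral_finsetSum _ (fun i _ => (hsqi i).const_mul _), Finset.mul_sum]
      apply Finset.sum_le_sum
      intro i _
      rw [integral_const_mul, integral_const_mul]
      have := mul_le_mul_of_nonneg_left (hci i) (sq_nonneg (a i))
      linarith

end Pool.Agent.H19.LK
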