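import Pool.Agent.H85.LK.Targets

/-! # Cutting the radial profile near zero -/

set_option autoImplicit false

open MeasureTheory Metric Set

namespace Pool.Agent.H19.LK

open Pool.Agent.H85.LK

theorem intOn_of (F : ℝ → ℝ) (hF : Continuous F) (h : ∀ t, 1 ≤ t → F t = 0) :
    IntegrableOn F (Ioi 0) := by
  have h1 : IntegrableOn F (Icc 0 1) := hF.continuousOn.integrableOn_Icc
  have h2 : IntegrableOn F (Ioi 1) := by
    have h3 : IntegrableOn (fun _ : ℝ => (0 : ℝ)) (Ioi 1) := integrableOn_zero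
    refine h3.congr_fun ?_ measurableSet_Ioi
    intro t ht
    exact (h t (le_of_lt ht)).symm
  refine (h1.union h2).mono_set ?_
  intro t ht
  rcases le_or_gt t 1 with h3 | h3
  · exact Or.inl ⟨le_of_lt ht, h3⟩
  · exact Or.inr h3

theorem intInd (r c : ℝ) (hr : 0 < r) :
    IntegrableOn ((Iio r).indicator (fun _ => c)) (Ioi 0) ∧
      ∫ t in Ioi (0 : ℝ), (Iio r).indicator (fun _ => c) t = c * r := by
  constructor
  · rw [IntegrableOn, integrable_indicator_iff measurableSet_Iio, IntegrableOn,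
      Measure.restrict_restrict measurableSet_Iio, Set.inter_comm, Ioi_inter_Iio]
    exact integrableOn_const (by simp)
  · rw [setIntegral_indicator measurableSet_Iio, Ioi_inter_Iio, setIntegral_const,
      Real.volume_real_Ioo_of_le hr.le, smul_eq_mul]
    ring

/-- the derivative of the smooth transition -/
theorem dst_bound : ∃ M : ℝ, 0 ≤ M ∧ ∀ x, |deriv Real.smoothTransition x| ≤ M := by
  have hc : Continuous (deriv Real.smoothTransition) := by
    have h1 : ContDiff ℝ 1 Real.smoothTransition := Real.smoothTransition.contDiff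
    exact h1.continuous_deriv le_rfl
  obtain ⟨M, hM⟩ := (isCompact_Icc (a := (0 : ℝ)) (b := 1)).exists_bound_of_continuousOn
    hc.continuousOn
  refine ⟨max M 0, le_max_right _ _, fun x => ?_⟩
  rcases lt_or_ge x 0 with h | h
  · have h1 : Real.smoothTransition =ᶠ[nhds x] fun _ => 0 := by
      filter_upwards [Iio_mem_nhds h] with y hy
      exact Real.smoothTransition.zero_of_nonpos (le_of_lt hy)
    rw [h1.deriv_eq, deriv_const, abs_zero]
    exact le_max_right _ _
  · rcases le_or_gt x 1 with h2 | h2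
    · exact (hM x ⟨h, h2⟩).trans (le_max_left _ _)
    · have h1 : Real.smoothTransition =ᶠ[nhds x] fun _ => 1 := by
        filter_upwards [Ioi_mem_nhds h2] with y hy
        exact Real.smoothTransition.one_of_one_le (le_of_lt hy)
      rw [h1.deriv_eq, deriv_const, abs_zero]
      exact le_max_right _ _

/-- the derivative vanishes to the right of one -/
theorem dst_zero (x : ℝ) (h : 1 ≤ x) : deriv Real.smoothTransition x = 0 := by
  have hc : Continuous (deriv Real.smoothTransition) := by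
    have h1 : ContDiff ℝ 1 Real.smoothTransition := Real.smoothTransition.contDiff
    exact h1.continuous_deriv le_rfl
  have h3 : ∀ y : ℝ, 1 < y → deriv Real.smoothTransition y = 0 := by
    intro y hy
    have h1 : Real.smoothTransition =ᶠ[nhds y] fun _ => 1 := by
      filter_upwards [Ioi_mem_nhds hy] with z hz
      exact Real.smoothTransition.one_of_one_le (le_of_lt hz)
    rw [h1.deriv_eq, deriv_const]
  rcases lt_or_eq_of_le h with h4 | h4
  · exact h3 x h4
  · subst h4
    have h5 : IsClosed {y : ℝ | deriv Real.smoothTransition y = 0} :=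
      isClosed_eq hc continuous_const
    have h6 : closure (Ioi (1 : ℝ)) ⊆ {y : ℝ | deriv Real.smoothTransition y = 0} :=
      h5.closure_subset_iff.2 (fun y hy => h3 y hy)
    rw [closure_Ioi] at h6
    exact h6 (Set.mem_Ici.2 le_rfl)

theorem sq_add_le (x y θ : ℝ) (hθ : 0 < θ) :
    (x + y) ^ 2 ≤ (1 + θ) * x ^ 2 + (1 + 1 / θ) * y ^ 2 := by
  have h1 : (1 + θ) * x ^ 2 + (1 + 1 / θ) * y ^ 2 - (x + y) ^ 2 = (θ * x - y) ^ 2 / θ := by
    field_simp
    ring
  have h2 : 0 ≤ (θ * x - y) ^ 2 / θ := by positivity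
  linarith

theorem pf_BUB : T_BUB := by
  intro N g K ε hN hε hg hδ hJ0 hJ1
  obtain ⟨δ, hδ0, hδ1, hgz⟩ := hδ
  obtain ⟨M, hM0, hM⟩ := dst_bound
  have hgc : Continuous g := hg.continuous
  have hg'c : Continuous (deriv g) := by
    have h1 : ContDiff ℝ 1 g := hg.of_le (by exact_mod_cast le_top)
    exact h1.continuous_deriv le_rfl
  -- bound for g on [0,1]
  obtain ⟨G, hG⟩ := (isCompact_Icc (a := (0 : ℝ)) (b := 1)).exists_bound_of_continuousOn
    hgc.continuousOn
  have hG0 : 0 ≤ G := (norm_nonneg _).trans (hG 0 ⟨le_rfl, zero_le_one⟩)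
  have hGs : ∀ t ∈ Icc (0 : ℝ) 1, g t ^ 2 ≤ G ^ 2 := by
    intro t ht
    have h1 := hG t ht
    rw [Real.norm_eq_abs] at h1
    exact sq_le_sq' (by linarith [(abs_le.1 h1).1]) (abs_le.1 h1).2
  have hg'z : ∀ t, 1 ≤ t → deriv g t = 0 := by
    intro t ht
    have h1 : g =ᶠ[nhds t] fun _ => 0 := by
      filter_upwards [Ioi_mem_nhds (show 1 - δ < t by linarith)] with y hy
      exact hgz y (le_of_lt hy)
    rw [h1.deriv_eq, deriv_const]
  set J0 : ℝ := ∫ t in Ioi (0 : ℝ), g t ^ 2 * t ^ (N - 1) with hJ0d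
  set J1 : ℝ := ∫ t in Ioi (0 : ℝ), deriv g t ^ 2 * t ^ (N - 1) with hJ1d
  have hJ1p : 0 ≤ J1 := by
    refine setIntegral_nonneg measurableSet_Ioi fun t ht => ?_
    have : (0 : ℝ) ≤ t := le_of_lt ht
    positivity
  have hK : 0 ≤ K := by
    by_contra h
    push Not at h
    nlinarith
  set θ : ℝ := ε * J0 / (2 * (J1 + 1)) with hθd
  have hθ : 0 < θ := by positivity
  have hθJ : θ * J1 ≤ ε * J0 / 2 := by
    have h1 : θ * (J1 + 1) = ε * J0 / 2 := by
      rw [hθd]
      field_simp
    nlinarith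
  set C : ℝ := (1 + 1 / θ) * (M ^ 2 * G ^ 2 * 4) * 2 + (K + ε) * (G ^ 2 * 2) with hC
  have hC0 : 0 ≤ C := by positivity
  obtain ⟨d, hd0, hd4, hdδ, hdC, hdG⟩ : ∃ d : ℝ, 0 < d ∧ d ≤ 1 / 4 ∧ d ≤ δ ∧
      C * d ≤ ε * J0 / 2 ∧ G ^ 2 * (2 * d) < J0 := by
    refine ⟨min (1 / 4) (min δ (min (ε * J0 / (2 * (C + 1))) (J0 / (2 * G ^ 2 + 2)))),
      ?_, min_le_left _ _, (min_le_right _ _).trans (min_le_left _ _), ?_, ?_⟩
    · refine lt_min (by norm_num) (lt_min hδ0 (lt_min (by positivity) (by positivity)))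
    · have h1 : min (1 / 4) (min δ (min (ε * J0 / (2 * (C + 1))) (J0 / (2 * G ^ 2 + 2)))) ≤
          ε * J0 / (2 * (C + 1)) :=
        (min_le_right _ _).trans ((min_le_right _ _).trans (min_le_left _ _))
      have h2 : C * (ε * J0 / (2 * (C + 1))) ≤ ε * J0 / 2 := by
        rw [← sub_nonneg]
        have : ε * J0 / 2 - C * (ε * J0 / (2 * (C + 1))) = ε * J0 / (2 * (C + 1)) := by
          field_simp
          ring
        rw [this]
        positivity
      exact (mul_le_mul_of_nonneg_left h1 hC0).trans h2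
    · have h1 : min (1 / 4) (min δ (min (ε * J0 / (2 * (C + 1))) (J0 / (2 * G ^ 2 + 2)))) ≤
          J0 / (2 * G ^ 2 + 2) :=
        (min_le_right _ _).trans ((min_le_right _ _).trans (min_le_right _ _))
      have h2 : G ^ 2 * (2 * (J0 / (2 * G ^ 2 + 2))) < J0 := by
        rw [← sub_pos]
        have : J0 - G ^ 2 * (2 * (J0 / (2 * G ^ 2 + 2))) = 2 * J0 / (2 * G ^ 2 + 2) := by
          field_simp
          ring
        rw [this]
        positivity
      refine lt_of_le_of_lt ?_ h2
      have hG2 : 0 ≤ G ^ 2 := sq_nonneg _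
      nlinarith
  set η : ℝ → ℝ := fun t => Real.smoothTransition (t / d - 1) with hη
  have hηs : ContDiff ℝ (⊤ : ℕ∞) η := by
    refine Real.smoothTransition.contDiff.comp ?_
    fun_prop
  have hη0 : ∀ t, 0 ≤ η t := fun t => Real.smoothTransition.nonneg _
  have hη1 : ∀ t, η t ≤ 1 := fun t => Real.smoothTransition.le_one _
  have hηz : ∀ t, t ≤ d → η t = 0 := by
    intro t ht
    refine Real.smoothTransition.zero_of_nonpos ?_
    rw [sub_nonpos, div_le_one hd0]
    exact ht
  have hηo : ∀ t, 2 * d ≤ t → η t = 1 := by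
    intro t ht
    refine Real.smoothTransition.one_of_one_le ?_
    have : 2 ≤ t / d := by rw [le_div_iff₀ hd0]; exact ht
    linarith
  have hηd : ∀ t, HasDerivAt η (deriv Real.smoothTransition (t / d - 1) * (1 / d)) t := by
    intro t
    have h1 : DifferentiableAt ℝ Real.smoothTransition (t / d - 1) := by
      have h2 : ContDiff ℝ 1 Real.smoothTransition := Real.smoothTransition.contDiff
      exact (h2.differentiable one_ne_zero).differentiableAt
    have h3 : HasDerivAt (fun t : ℝ => t / d - 1) (1 / d) t :=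
      ((hasDerivAt_id t).div_const d).sub_const 1
    exact h1.hasDerivAt.comp t h3
  set a : ℝ → ℝ := fun t => η t * g t with ha
  have had : ∀ t, deriv a t = η t * deriv g t +
      deriv Real.smoothTransition (t / d - 1) * (1 / d) * g t := by
    intro t
    have h1 : HasDerivAt g (deriv g t) t :=
      ((hg.differentiable (by simp)).differentiableAt).hasDerivAt
    have h2 := (hηd t).mul h1
    have h3 : a = η * g := rfl
    rw [h3, h2.deriv]
    ring
  have hac : Continuous a := (hηs.mul hg).continuous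
  have ha'c : Continuous (deriv a) := by
    have h1 : ContDiff ℝ 1 a := (hηs.mul hg).of_le (by exact_mod_cast le_top)
    exact h1.continuous_deriv le_rfl
  have haz : ∀ t, 1 - d ≤ t → a t = 0 := by
    intro t ht
    simp only [ha]
    rw [hgz t (by linarith), mul_zero]
  have ha'z : ∀ t, 1 ≤ t → deriv a t = 0 := by
    intro t ht
    rw [had, hg'z t ht, hgz t (by linarith), mul_zero, mul_zero, add_zero]
  have i0 : IntegrableOn (fun t => g t ^ 2 * t ^ (N - 1)) (Ioi 0) :=
    intOn_of _ (by fun_prop) (fun t ht => by rw [hgz t (by linarith)]; ring)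
  have i1 : IntegrableOn (fun t => deriv g t ^ 2 * t ^ (N - 1)) (Ioi 0) :=
    intOn_of _ (by fun_prop) (fun t ht => by rw [hg'z t ht]; ring)
  have i2 : IntegrableOn (fun t => a t ^ 2 * t ^ (N - 1)) (Ioi 0) :=
    intOn_of _ (by fun_prop) (fun t ht => by rw [haz t (by linarith)]; ring)
  have i3 : IntegrableOn (fun t => deriv a t ^ 2 * t ^ (N - 1)) (Ioi 0) :=
    intOn_of _ (by fun_prop) (fun t ht => by rw [ha'z t ht]; ring)
  obtain ⟨i4, e4⟩ := intInd (2 * d) (G ^ 2) (by linarith)
  obtain ⟨i5, e5⟩ := intInd (2 * d) ((1 + 1 / θ) * (M ^ 2 * G ^ 2 * 4)) (by linarith)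
  have hP : J0 ≤ (∫ t in Ioi (0 : ℝ), a t ^ 2 * t ^ (N - 1)) + G ^ 2 * (2 * d) := by
    rw [← e4, ← integral_add i2 i4, hJ0d]
    refine setIntegral_mono_on i0 (i2.add i4) measurableSet_Ioi fun t ht => ?_
    have ht0 : (0 : ℝ) ≤ t := le_of_lt ht
    by_cases h : t < 2 * d
    · rw [indicator_of_mem (show t ∈ Iio (2 * d) from h)]
      have h1 : t ^ (N - 1) ≤ 1 := pow_le_one₀ ht0 (by linarith)
      have h2 := hGs t ⟨ht0, by linarith⟩
      have h3 : 0 ≤ a t ^ 2 * t ^ (N - 1) := by positivity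
      have h4 : g t ^ 2 * t ^ (N - 1) ≤ G ^ 2 * 1 := by
        apply mul_le_mul h2 h1 (by positivity) (by positivity)
      linarith
    · rw [indicator_of_notMem (show t ∉ Iio (2 * d) from h)]
      simp only [ha]
      rw [hηo t (not_lt.1 h), one_mul, add_zero]
  have hQ : ∫ t in Ioi (0 : ℝ), deriv a t ^ 2 * t ^ (N - 1) ≤
      (1 + θ) * J1 + (1 + 1 / θ) * (M ^ 2 * G ^ 2 * 4) * (2 * d) := by
    rw [← e5, hJ1d, ← integral_const_mul, ← integral_add (i1.const_mul _) i5]
    refine setIntegral_mono_on i3 ((i1.const_mul _).add i5) measurableSet_Ioi fun t ht => ?_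
    have ht0 : (0 : ℝ) ≤ t := le_of_lt ht
    have hw : 0 ≤ t ^ (N - 1) := by positivity
    have hx : (η t * deriv g t) ^ 2 ≤ deriv g t ^ 2 := by
      rw [mul_pow]
      have h1 : η t ^ 2 ≤ 1 := pow_le_one₀ (hη0 t) (hη1 t)
      nlinarith [sq_nonneg (deriv g t)]
    rw [had]
    by_cases h : t < 2 * d
    · rw [indicator_of_mem (show t ∈ Iio (2 * d) from h)]
      have h1 := sq_add_le (η t * deriv g t)
        (deriv Real.smoothTransition (t / d - 1) * (1 / d) * g t) θ hθ
      have h2 : (deriv Real.smoothTransition (t / d - 1) * (1 / d) * g t) ^ 2 * t ^ (N - 1) ≤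
          M ^ 2 * G ^ 2 * 4 := by
        have h3 : (deriv Real.smoothTransition (t / d - 1)) ^ 2 ≤ M ^ 2 := by
          have h4 := abs_le.1 (hM (t / d - 1))
          exact sq_le_sq' (by linarith [h4.1]) h4.2
        have h4 := hGs t ⟨ht0, by linarith⟩
        have h5 : t ^ (N - 1) ≤ 4 * d ^ 2 := by
          have h6 : t ^ (N - 1) ≤ t ^ 2 :=
            pow_le_pow_of_le_one ht0 (by linarith) (by omega)
          nlinarith
        have h6 : (deriv Real.smoothTransition (t / d - 1) * (1 / d) * g t) ^ 2 * t ^ (N - 1) =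
            (deriv Real.smoothTransition (t / d - 1)) ^ 2 * (g t ^ 2) * (t ^ (N - 1) / d ^ 2) := by
          field_simp
        rw [h6]
        have h7 : t ^ (N - 1) / d ^ 2 ≤ 4 := by
          rw [div_le_iff₀ (by positivity)]
          exact h5
        exact mul_le_mul (mul_le_mul h3 h4 (sq_nonneg _) (sq_nonneg _)) h7 (by positivity)
          (by positivity)
      calc (η t * deriv g t + deriv Real.smoothTransition (t / d - 1) * (1 / d) * g t) ^ 2 *
            t ^ (N - 1)
          ≤ ((1 + θ) * (η t * deriv g t) ^ 2 + (1 + 1 / θ) *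
            (deriv Real.smoothTransition (t / d - 1) * (1 / d) * g t) ^ 2) * t ^ (N - 1) :=
            mul_le_mul_of_nonneg_right h1 hw
        _ = (1 + θ) * ((η t * deriv g t) ^ 2 * t ^ (N - 1)) + (1 + 1 / θ) *
            ((deriv Real.smoothTransition (t / d - 1) * (1 / d) * g t) ^ 2 * t ^ (N - 1)) := by
            ring
        _ ≤ (1 + θ) * (deriv g t ^ 2 * t ^ (N - 1)) + (1 + 1 / θ) * (M ^ 2 * G ^ 2 * 4) := by
            have h8 := mul_le_mul_of_nonneg_right hx hw
            have h9 : 0 ≤ 1 + θ := by positivity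
            have h10 : 0 ≤ 1 + 1 / θ := by positivity
            exact add_le_add (mul_le_mul_of_nonneg_left h8 h9)
              (mul_le_mul_of_nonneg_left h2 h10)
    · rw [indicator_of_notMem (show t ∉ Iio (2 * d) from h)]
      have h2d : 2 * d ≤ t := not_lt.1 h
      have h1 : 1 ≤ t / d - 1 := by
        have : 2 ≤ t / d := by rw [le_div_iff₀ hd0]; exact h2d
        linarith
      rw [dst_zero _ h1, zero_mul, zero_mul, add_zero, add_zero]
      have h8 := mul_le_mul_of_nonneg_right hx hw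
      have h9 : 0 ≤ deriv g t ^ 2 * t ^ (N - 1) := by positivity
      nlinarith
  refine ⟨a, d, ⟨hηs.mul hg, hd0, by linarith, ?_, haz⟩, by linarith, ?_⟩
  · intro t ht
    simp only [ha]
    rw [hηz t ht, zero_mul]
  · refine hQ.trans ?_
    have h1 : (K + ε) * J0 ≤ (K + ε) * ((∫ t in Ioi (0 : ℝ), a t ^ 2 * t ^ (N - 1)) +
        G ^ 2 * (2 * d)) := mul_le_mul_of_nonneg_left hP (by linarith)
    have h2 : C * d = (1 + 1 / θ) * (M ^ 2 * G ^ 2 * 4) * (2 * d) +
        (K + ε) * (G ^ 2 * (2 * d)) := by rw [hC]; ring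
    nlinarith

end Pool.Agent.H19.LK
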