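import Pool.Agent.H85.LK.Targets

/-! # The support estimate for the random fields -/

set_option autoImplicit false

open MeasureTheory Metric Set ProbabilityTheory

namespace Pool.Agent.H19.LK

open Pool.Agent.H85.LK

theorem int_bdd {α : Type} [MeasurableSpace α] (μ : Measure α) [IsFiniteMeasure μ] (f : α → ℝ)
    (C : ℝ) (hf : Measurable f) (h : ∀ x, |f x| ≤ C) : Integrable f μ :=
  Integrable.of_bound hf.aestronglyMeasurable C (ae_of_all _ fun x => by
    rw [Real.norm_eq_abs]; exact h x)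

/-- the normalised vector -/
noncomputable def nrm {n : ℕ} (w : E n) : E n := ‖w‖⁻¹ • w

theorem nrm_norm_le {n : ℕ} (w : E n) : ‖nrm w‖ ≤ 1 := by
  rw [nrm, norm_smul, norm_inv, norm_norm]
  rcases eq_or_ne ‖w‖ 0 with h | h
  · rw [h]; simp
  · rw [inv_mul_cancel₀ h]

theorem nrm_norm {n : ℕ} (w : E n) (hw : w ≠ 0) : ‖nrm w‖ = 1 := by
  rw [nrm, norm_smul, norm_inv, norm_norm, inv_mul_cancel₀ (norm_ne_zero_iff.2 hw)]

theorem inner_nrm {n : ℕ} (c w : E n) : inner ℝ c (nrm w) = inner ℝ c w / ‖w‖ := by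
  rw [nrm, real_inner_smul_right, div_eq_inv_mul]

theorem nrm_inner {n : ℕ} (c w : E n) : inner ℝ (nrm w) c = inner ℝ w c / ‖w‖ := by
  rw [nrm, real_inner_smul_left, div_eq_inv_mul]

theorem M2_nonneg (b l : ℝ) : 0 ≤ M2 b l := integral_nonneg fun _ => sq_nonneg _

/-- the second moments of the vector field -/
theorem moments {N n : ℕ} (A : Set (E N)) (Ψ : E N → E n) [IsFiniteMeasure (volume.restrict A)]
    (hΨ : BdV A Ψ) (h : ∀ i j, ∫ x, Ψ x i * Ψ x j = if i = j then 1 else 0) (u : E n) :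
    ∫ x, (inner ℝ (Ψ x) u : ℝ) ^ 2 ∂(volume.restrict A) = ‖u‖ ^ 2 := by
  obtain ⟨hm, ⟨M, hM⟩, hz⟩ := hΨ
  have hcm : ∀ i, Measurable fun x => Ψ x i := by
    intro i
    have h0 : Continuous fun w : E n => w i := by fun_prop
    exact h0.measurable.comp hm
  have hci : ∀ x i, |Ψ x i| ≤ M := by
    intro x i
    have h1 : ‖Ψ x i‖ ≤ ‖Ψ x‖ := PiLp.norm_apply_le (Ψ x) i
    exact h1.trans (hM x)
  have hM0 : 0 ≤ M := (norm_nonneg _).trans (hM 0)
  have h1 : ∀ i j, ∫ x, Ψ x i * Ψ x j ∂(volume.restrict A) = if i = j then 1 else 0 := by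
    intro i j
    rw [← h i j]
    refine setIntegral_eq_integral_of_forall_compl_eq_zero fun x hx => ?_
    rw [hz x hx]
    simp
  have h2 : ∀ i j, Integrable (fun x => Ψ x i * Ψ x j) (volume.restrict A) := by
    intro i j
    refine int_bdd _ _ (M * M) ((hcm i).mul (hcm j)) fun x => ?_
    rw [abs_mul]
    exact mul_le_mul (hci x i) (hci x j) (abs_nonneg _) hM0
  have h3 : ∀ x, (inner ℝ (Ψ x) u : ℝ) ^ 2 = ∑ i, ∑ j, u i * u j * (Ψ x i * Ψ x j) := by
    intro x
    rw [PiLp.inner_apply, sq, Finset.sum_mul_sum]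
    refine Finset.sum_congr rfl fun i _ => Finset.sum_congr rfl fun j _ => ?_
    simp only [RCLike.inner_apply, conj_trivial]
    ring
  simp_rw [h3]
  rw [integral_finsetSum _ fun i _ => integrable_finsetSum _ fun j _ => (h2 i j).const_mul _]
  have h4 : ∀ i, ∫ x, ∑ j, u i * u j * (Ψ x i * Ψ x j) ∂(volume.restrict A) = u i ^ 2 := by
    intro i
    rw [integral_finsetSum _ fun j _ => (h2 i j).const_mul _]
    simp_rw [integral_const_mul, h1]
    simp [sq]
  simp_rw [h4]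
  rw [EuclideanSpace.norm_sq_eq]
  simp

theorem moment2 {N n : ℕ} (A : Set (E N)) (Ψ : E N → E n) [IsFiniteMeasure (volume.restrict A)]
    (hΨ : BdV A Ψ) (h : ∀ i j, ∫ x, Ψ x i * Ψ x j = if i = j then 1 else 0) :
    ∫ x, ‖Ψ x‖ ^ 2 ∂(volume.restrict A) = n := by
  have h1 := fun i => moments A Ψ hΨ h (EuclideanSpace.single i 1)
  have hΨ' := hΨ
  obtain ⟨hm, ⟨M, hM⟩, _⟩ := hΨ'
  have h2 : ∀ x, ‖Ψ x‖ ^ 2 = ∑ i, (inner ℝ (Ψ x) (EuclideanSpace.single i (1 : ℝ)) : ℝ) ^ 2 := by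
    intro x
    rw [EuclideanSpace.norm_sq_eq]
    refine Finset.sum_congr rfl fun i _ => ?_
    rw [real_inner_comm, EuclideanSpace.inner_single_left]
    simp
  have h3 : ∀ i : Fin n, Integrable (fun x =>
      (inner ℝ (Ψ x) (EuclideanSpace.single i (1 : ℝ)) : ℝ) ^ 2) (volume.restrict A) := by
    intro i
    refine int_bdd _ _ (M ^ 2) ((hm.inner measurable_const).pow_const 2) fun x => ?_
    rw [abs_of_nonneg (sq_nonneg _)]
    have h4 : |(inner ℝ (Ψ x) (EuclideanSpace.single i (1 : ℝ)) : ℝ)| ≤ M := by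
      refine (abs_real_inner_le_norm _ _).trans ?_
      rw [PiLp.norm_single, norm_one, mul_one]
      exact hM x
    exact sq_le_sq' (by linarith [(abs_le.1 h4).1]) (abs_le.1 h4).2
  simp_rw [h2]
  rw [integral_finsetSum _ fun i _ => h3 i]
  simp_rw [h1]
  simp

theorem ind_bd {α : Type} (S : Set α) (q : α) : 0 ≤ S.indicator (fun _ => (1 : ℝ)) q ∧
    S.indicator (fun _ => (1 : ℝ)) q ≤ 1 := by
  by_cases h : q ∈ S
  · rw [indicator_of_mem h]; exact ⟨zero_le_one, le_rfl⟩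
  · rw [indicator_of_notMem h]; exact ⟨le_rfl, zero_le_one⟩

/-- abstract Fubini argument -/
theorem abs_fub {α β : Type} [MeasurableSpace α] [MeasurableSpace β] (γ : Measure α)
    [IsFiniteMeasure γ] (μ : Measure β) [IsFiniteMeasure μ] (Rg : Set (α × β))
    (hRg : MeasurableSet Rg) (G : α → β → ℝ) (hG : Measurable (Function.uncurry G)) (M : ℝ)
    (hM : ∀ c x, |G c x| ≤ M) (R : β × β → ℝ) (hR : Integrable R (μ.prod μ))
    (hpt : ∀ y x, ∫ c, Rg.indicator (fun _ => (1 : ℝ)) (c, y) * G c x ^ 2 ∂γ ≤ R (y, x)) :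
    Integrable (fun c => (∫ y, Rg.indicator (fun _ => (1 : ℝ)) (c, y) ∂μ) *
      ∫ x, G c x ^ 2 ∂μ) γ ∧
    ∫ c, ((∫ y, Rg.indicator (fun _ => (1 : ℝ)) (c, y) ∂μ) * ∫ x, G c x ^ 2 ∂μ) ∂γ ≤
      ∫ p, R p ∂(μ.prod μ) := by
  have h0 : Measurable (Rg.indicator (fun _ => (1 : ℝ))) := measurable_const.indicator hRg
  have h00 : Measurable fun q : α × (β × β) => (q.1, q.2.1) := by fun_prop
  have h01 : Measurable fun q : α × (β × β) => (q.1, q.2.2) := by fun_prop
  have h1 : Measurable fun q : α × (β × β) =>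
      Rg.indicator (fun _ => (1 : ℝ)) (q.1, q.2.1) := h0.comp h00
  have h2 : Measurable fun q : α × (β × β) => G q.1 q.2.2 := hG.comp h01
  have hFi : Integrable (fun q : α × (β × β) =>
      Rg.indicator (fun _ => (1 : ℝ)) (q.1, q.2.1) * G q.1 q.2.2 ^ 2) (γ.prod (μ.prod μ)) := by
    refine int_bdd _ _ (1 * M ^ 2) (h1.mul (h2.pow_const 2)) fun q => ?_
    rw [abs_of_nonneg (mul_nonneg (ind_bd _ _).1 (sq_nonneg _))]
    refine mul_le_mul (ind_bd _ _).2 ?_ (sq_nonneg _) zero_le_one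
    have h4 := hM q.1 q.2.2
    exact sq_le_sq' (by linarith [(abs_le.1 h4).1]) (abs_le.1 h4).2
  have e1 : ∀ c, (∫ y, Rg.indicator (fun _ => (1 : ℝ)) (c, y) ∂μ) * ∫ x, G c x ^ 2 ∂μ =
      ∫ p : β × β, Rg.indicator (fun _ => (1 : ℝ)) (c, p.1) * G c p.2 ^ 2 ∂(μ.prod μ) := by
    intro c
    exact (integral_prod_mul (fun y => Rg.indicator (fun _ => (1 : ℝ)) (c, y))
      (fun x => G c x ^ 2)).symm
  simp_rw [e1]
  have h5 := hFi.integral_prod_left
  refine ⟨h5, ?_⟩
  rw [integral_integral_swap hFi]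
  exact integral_mono hFi.integral_prod_right hR fun p => hpt p.1 p.2

theorem pf_FL3 (hCOR : T_COR) (hMEA : T_MEA) : T_FL3 := by
  intro N n b l A Ψ hb hl hA hAb hΨ horth
  have hb0 : 0 < b := by linarith
  obtain ⟨hGm, ⟨M, hM⟩, hBd, hRm, hrg⟩ := hMEA N n b l A Ψ hb0 hl hA hΨ
  have hΨ' := hΨ
  obtain ⟨hm, ⟨MΨ, hMΨ⟩, hz⟩ := hΨ'
  have hMΨ0 : 0 ≤ MΨ := (norm_nonneg _).trans (hMΨ 0)
  have hfin : IsFiniteMeasure (volume.restrict A : Measure (E N)) :=
    ⟨by rw [Measure.restrict_apply_univ]; exact hAb.measure_lt_top⟩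
  set μ : Measure (E N) := volume.restrict A with hμ
  set S : Set (E N) := {x | Ψ x ≠ 0} with hS
  have hSm : MeasurableSet S := (hm (measurableSet_singleton (0 : E n))).compl
  have hSA : S ⊆ A := by
    intro x hx
    by_contra h
    exact hx (hz x h)
  set e : ℝ := Real.exp (1 - b ^ 2 / 2) with he
  have he0 : 0 < e := Real.exp_pos _
  have hbl : 0 ≤ (b + l) ^ 4 := by positivity
  set R : E N × E N → ℝ := fun p => S.indicator (fun _ => (1 : ℝ)) p.1 *
    (M2 b l * (e * ‖Ψ p.2‖ ^ 2 + (b + l) ^ 4 * (inner ℝ (Ψ p.2) (nrm (Ψ p.1)) : ℝ) ^ 2)) with hR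
  have hum : Measurable fun y => nrm (Ψ y) := hm.norm.inv.smul hm
  have hRm' : Measurable R := by
    have h2 : Measurable fun p : E N × E N => Ψ p.2 := hm.comp measurable_snd
    have h3 : Measurable fun p : E N × E N => nrm (Ψ p.1) := hum.comp measurable_fst
    have h4 : Measurable fun p : E N × E N => S.indicator (fun _ => (1 : ℝ)) p.1 :=
      (measurable_const.indicator hSm).comp measurable_fst
    exact h4.mul ((((h2.norm.pow_const 2).const_mul e).add
      (((h2.inner h3).pow_const 2).const_mul _)).const_mul _)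
  have hΨsq : ∀ x, ‖Ψ x‖ ^ 2 ≤ MΨ ^ 2 := fun x =>
    pow_le_pow_left₀ (norm_nonneg _) (hMΨ x) 2
  have hinsq : ∀ x y, (inner ℝ (Ψ x) (nrm (Ψ y)) : ℝ) ^ 2 ≤ MΨ ^ 2 := by
    intro x y
    have h4 : |(inner ℝ (Ψ x) (nrm (Ψ y)) : ℝ)| ≤ MΨ := by
      refine (abs_real_inner_le_norm _ _).trans ?_
      calc ‖Ψ x‖ * ‖nrm (Ψ y)‖ ≤ MΨ * 1 :=
            mul_le_mul (hMΨ x) (nrm_norm_le _) (norm_nonneg _) hMΨ0
        _ = MΨ := mul_one _
    exact sq_le_sq' (by linarith [(abs_le.1 h4).1]) (abs_le.1 h4).2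
  have hRi : Integrable R (μ.prod μ) := by
    refine int_bdd _ _ (1 * (M2 b l * (e * MΨ ^ 2 + (b + l) ^ 4 * MΨ ^ 2))) hRm' fun p => ?_
    have h5 : 0 ≤ M2 b l * (e * ‖Ψ p.2‖ ^ 2 + (b + l) ^ 4 *
        (inner ℝ (Ψ p.2) (nrm (Ψ p.1)) : ℝ) ^ 2) :=
      mul_nonneg (M2_nonneg b l) (by positivity)
    rw [abs_of_nonneg (mul_nonneg (ind_bd _ _).1 h5)]
    refine mul_le_mul (ind_bd _ _).2 ?_ h5 zero_le_one
    refine mul_le_mul_of_nonneg_left ?_ (M2_nonneg b l)
    exact add_le_add (mul_le_mul_of_nonneg_left (hΨsq _) he0.le)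
      (mul_le_mul_of_nonneg_left (hinsq _ _) hbl)
  set Rg : Set (E n × E N) := {p | p.2 ∈ reg b Ψ p.1} with hRg
  have hpt : ∀ y x : E N, ∫ c : E n, Rg.indicator (fun _ => (1 : ℝ)) (c, y) *
      GG b l c (Ψ x) ^ 2 ∂(stdGaussian (E n)) ≤ R (y, x) := by
    intro y x
    have h5 : 0 ≤ M2 b l * (e * ‖Ψ x‖ ^ 2 + (b + l) ^ 4 *
        (inner ℝ (Ψ x) (nrm (Ψ y)) : ℝ) ^ 2) :=
      mul_nonneg (M2_nonneg b l) (by positivity)
    have hR0 : 0 ≤ R (y, x) := mul_nonneg (ind_bd _ _).1 h5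
    by_cases hy : Ψ y = 0
    · have h6 : ∀ c : E n, Rg.indicator (fun _ => (1 : ℝ)) (c, y) * GG b l c (Ψ x) ^ 2 = 0 := by
        intro c
        have h7 : (c, y) ∉ Rg := fun h => h.1 hy
        rw [indicator_of_notMem h7, zero_mul]
      simp_rw [h6]
      rw [integral_zero]
      exact hR0
    by_cases hx : Ψ x = 0
    · have h6 : ∀ c : E n, Rg.indicator (fun _ => (1 : ℝ)) (c, y) * GG b l c (Ψ x) ^ 2 = 0 := by
        intro c
        rw [hx, GG, norm_zero, zero_mul]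
        ring
      simp_rw [h6]
      rw [integral_zero]
      exact hR0
    · have h7 := hCOR n b l (nrm (Ψ x)) (nrm (Ψ y)) hb hl (nrm_norm _ hx) (nrm_norm _ hy)
      have h6 : ∀ c : E n, Rg.indicator (fun _ => (1 : ℝ)) (c, y) * GG b l c (Ψ x) ^ 2 =
          ‖Ψ x‖ ^ 2 *
          (({c : E n | b < inner ℝ c (nrm (Ψ y))}.indicator (fun _ => (1 : ℝ)) c) *
            chi b l (inner ℝ c (nrm (Ψ x))) ^ 2) := by
        intro c
        have h8 : Rg.indicator (fun _ => (1 : ℝ)) (c, y) =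
            {c : E n | b < inner ℝ c (nrm (Ψ y))}.indicator (fun _ => (1 : ℝ)) c := by
          by_cases h : b < inner ℝ c (nrm (Ψ y))
          · rw [indicator_of_mem (show c ∈ {c : E n | b < inner ℝ c (nrm (Ψ y))} from h)]
            rw [inner_nrm] at h
            rw [indicator_of_mem (show (c, y) ∈ Rg from ⟨hy, h⟩)]
          · rw [indicator_of_notMem (show c ∉ {c : E n | b < inner ℝ c (nrm (Ψ y))} from h)]
            rw [inner_nrm] at h
            rw [indicator_of_notMem (show (c, y) ∉ Rg from fun h9 => h h9.2)]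
        rw [h8, GG, inner_nrm c (Ψ x)]
        ring
      simp_rw [h6]
      rw [integral_const_mul]
      have h9 : R (y, x) = ‖Ψ x‖ ^ 2 * (M2 b l * (e + (b + l) ^ 4 *
          (inner ℝ (nrm (Ψ x)) (nrm (Ψ y)) : ℝ) ^ 2)) := by
        simp only [hR]
        rw [indicator_of_mem (show y ∈ S from hy), nrm_inner]
        have h10 : ‖Ψ x‖ ≠ 0 := norm_ne_zero_iff.2 hx
        field_simp
      rw [h9]
      exact mul_le_mul_of_nonneg_left h7 (sq_nonneg _)
  obtain ⟨a1, a2⟩ := abs_fub (stdGaussian (E n)) μ Rg hRm (fun c x => GG b l c (Ψ x)) hGm M hM R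
    hRi hpt
  have h1 : ∀ c : E n, volume.real (reg b Ψ c) * ∫ x, GG b l c (Ψ x) ^ 2 =
      (∫ y, Rg.indicator (fun _ => (1 : ℝ)) (c, y) ∂μ) * ∫ x, GG b l c (Ψ x) ^ 2 ∂μ := by
    intro c
    congr 1
    · have e2 : (fun y => Rg.indicator (fun _ => (1 : ℝ)) (c, y)) =
          (reg b Ψ c).indicator (fun _ => (1 : ℝ)) := by
        funext y
        by_cases h : y ∈ reg b Ψ c
        · rw [indicator_of_mem h, indicator_of_mem (show (c, y) ∈ Rg from h)]
        · rw [indicator_of_notMem h, indicator_of_notMem (show (c, y) ∉ Rg from h)]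
      rw [e2, integral_indicator_const _ (hrg c).1, smul_eq_mul, mul_one, hμ,
        measureReal_restrict_apply (hrg c).1, inter_eq_left.2 (hrg c).2.2]
    · refine (setIntegral_eq_integral_of_forall_compl_eq_zero fun x hx => ?_).symm
      rw [hz x hx, GG, norm_zero, zero_mul]
      ring
  simp_rw [h1]
  refine ⟨a1, a2.trans ?_⟩
  rw [integral_prod _ hRi]
  have h2 : ∀ y, ∫ x, R (y, x) ∂μ = S.indicator (fun _ => M2 b l * (n * e + (b + l) ^ 4)) y := by
    intro y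
    by_cases hy : y ∈ S
    · have h3 : ∀ x, R (y, x) = M2 b l * (e * ‖Ψ x‖ ^ 2 + (b + l) ^ 4 *
          (inner ℝ (Ψ x) (nrm (Ψ y)) : ℝ) ^ 2) := by
        intro x
        simp only [hR]
        rw [indicator_of_mem hy, one_mul]
      simp_rw [h3]
      rw [indicator_of_mem hy, integral_const_mul, integral_add, integral_const_mul,
        integral_const_mul, moment2 A Ψ hΨ horth, moments A Ψ hΨ horth, nrm_norm _ hy]
      · ring
      · refine int_bdd _ _ (e * MΨ ^ 2) ((hm.norm.pow_const 2).const_mul e) fun x => ?_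
        rw [abs_of_nonneg (by positivity)]
        exact mul_le_mul_of_nonneg_left (hΨsq _) he0.le
      · refine int_bdd _ _ ((b + l) ^ 4 * MΨ ^ 2)
          (((hm.inner measurable_const).pow_const 2).const_mul _) fun x => ?_
        rw [abs_of_nonneg (by positivity)]
        exact mul_le_mul_of_nonneg_left (hinsq _ _) hbl
    · have h3 : ∀ x, R (y, x) = 0 := by
        intro x
        simp only [hR]
        rw [indicator_of_notMem hy, zero_mul]
      simp_rw [h3]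
      rw [indicator_of_notMem hy, integral_zero]
  simp_rw [h2]
  rw [integral_indicator_const _ hSm, smul_eq_mul, hμ, measureReal_restrict_apply hSm,
    inter_eq_left.2 hSA]

end Pool.Agent.H19.LK
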